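import Pool.Agent.Helper8K9.DG.Fin
import Pool.Agent.Helper8K9.DG.Asc

/-!
# Deligne's conjecture for Artin twists

Let `M` be a motive over `ℚ` with coefficients in `E` and `m` an integer. Suppose that the critical values
at `m` of the abelian twists of `M` over the number fields that are solvable over a totally real subfield
are nonzero and algebraic with respect to some (unspecified) periods that depend only on the signs at the
real places, and that Deligne's conjecture holds for `M` and for one odd quadratic twist of `M`. Then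
Deligne's conjecture holds for `M ⊗ ρ`, for every Artin representation `ρ` of the Galois group of `ℚ` such
that the normal closure of the complex conjugation in the image of `ρ` is solvable.

`QA` is an algebraic closure of `ℚ`, `KK` an algebraically closed field (of coefficients for the `λ`-adic
realizations; for example `ℂ`).
-/

set_option autoImplicit false

namespace Pool.Agent.Results.MP_100fe7_nt.ArtinTwists

open Pool.Agent.Helper8K9.DG NumberField

variable {QA : Type} [Field QA] [CharZero QA] [IsAlgClosed QA] [Algebra.IsAlgebraic ℚ QA]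
  {KK : Type} [Field KK] [IsAlgClosed KK]

/-- **Deligne's conjecture for Artin twists.** -/
theorem result {E : Type} [Field E] [NumberField E] {d : ℕ} (M : Motive QA KK E d) (ι : QA →+* ℂ)
    (c : QA ≃ₐ[ℚ] QA) (hc : ∀ x, ι (c x) = starRingEnd ℂ (ι x)) (m : ℤ)
    (hab : AbelianTwists M ι c m)
    (hM : DeligneConjecture M ι c m (1 : (QA ≃ₐ[ℚ] QA) →* Matrix Unit Unit E))
    (χ₀ : (QA ≃ₐ[ℚ] QA) →* ℤˣ) (hfin : IsFinite ⊤ χ₀) (hodd : χ₀ c = -1)
    (hMχ : DeligneConjecture M ι c m (quadRep E χ₀)) :
    ∀ (E' : Type) [Field E'] [NumberField E'] [Algebra E E'] (n : Type) [Fintype n] [DecidableEq n]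
      (ρ : (QA ≃ₐ[ℚ] QA) →* Matrix n n E'), IsFinite ⊤ ρ →
      Group.IsSolvable (Subgroup.normalClosure {(c : (QA ≃ₐ[ℚ] QA) ⧸ ρ.ker)}) →
      DeligneConjecture M ι c m ρ := by
  intro E' _ _ _ n _ _ ρ hρ hsol
  have hcc := conj_sq ι c hc
  refine final M ι c hc m hab (fun F _ _ _ => ?_) χ₀ hfin hodd (fun F _ _ _ => ?_) E' n ρ hρ hsol
  · have h1 := asc pex puni E d M ι c hcc m F Unit 1 ⟨⊥, inferInstance, le_top, fun _ _ => rfl⟩ hM
    convert h1 using 1
    ext γ i j
    simp [quadRep]
  · obtain ⟨F₀, hF₀, -, h0⟩ := hfin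
    have h1 := asc pex puni E d M ι c hcc m F Unit (quadRep E χ₀) ⟨F₀, hF₀, le_top, fun γ hγ => by
      ext i j
      change (((χ₀ γ : ℤˣ) : ℤ) : E) = _
      rw [h0 γ hγ, Subsingleton.elim j i, Matrix.one_apply_eq]
      simp⟩ hMχ
    convert h1 using 1
    ext γ i j
    simp [quadRep]

end Pool.Agent.Results.MP_100fe7_nt.ArtinTwists
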