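import Pool.Agent.Helper61K9.CW.Fin

/-!
# Deligne's conjecture for Artin twists at central critical points

Let `M` be a motive over `ℚ` with coefficients in `E`, `m` and `m'` integers (in the applications `m` is the
central critical point, where the L-functions of the twists of `M` can vanish, and `m'` another critical
integer). Suppose that the critical values at `m'` of the abelian twists of `M` over the number fields that
are solvable over a totally real field are nonzero and algebraic with respect to unspecified periods that
depend only on the signs at the real places, that the values at `m` are algebraic with respect to the same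
periods, and that Deligne's conjecture holds at `m'` for `M` and for one odd quadratic twist of `M`.

Let `F` be a finite Galois extension of `ℚ` that is solvable over a totally real field, `F₀` a subfield of `F`
whose Galois group over `ℚ` is an M-group, `lam` a character of the Galois group of `F / ℚ`, and suppose that
at one embedding of the coefficients the order of vanishing of `L(s, M_F)` at `m` is at most `1` or at most
the order of vanishing of `L(s, M_{F₀} ⊗ lam)` at `m`. Then Deligne's conjecture holds at `m` for `M ⊗ ρ`, for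
every representation `ρ` of the Galois group of `F / ℚ`.

`QA` is an algebraic closure of `ℚ`, `KK` an algebraically closed field (of coefficients for the `λ`-adic
realizations; for example `ℂ`).
-/

set_option autoImplicit false

namespace Pool.Agent.Results.MP_100fe7_nt.CentralValues

open Pool.Agent.Helper8K9.DG Pool.Agent.Helper61K9.CW NumberField

variable {QA : Type} [Field QA] [CharZero QA] [IsAlgClosed QA] [Algebra.IsAlgebraic ℚ QA]
  {KK : Type} [Field KK] [IsAlgClosed KK]

open Classical in
/-- **Deligne's conjecture for Artin twists at points where the L-functions can vanish.** -/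
theorem result {E : Type} [Field E] [NumberField E] {d : ℕ} (M : Motive QA KK E d) (ι : QA →+* ℂ)
    (c : QA ≃ₐ[ℚ] QA) (hc : ∀ x, ι (c x) = starRingEnd ℂ (ι x)) (m m' : ℤ)
    (hab : AbelianTwists M ι c m')
    (hM : DeligneConjecture M ι c m' (1 : (QA ≃ₐ[ℚ] QA) →* Matrix Unit Unit E))
    (χ₀ : (QA ≃ₐ[ℚ] QA) →* ℤˣ) (hfin : IsFinite ⊤ χ₀) (hodd : χ₀ c = -1)
    (hMχ : DeligneConjecture M ι c m' (quadRep E χ₀)) (hper : SamePeriods M ι c m m') :
    ∀ (E' : Type) [Field E'] [NumberField E'] [Algebra E E'] (F F₀ : IntermediateField ℚ QA)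
      [FiniteDimensional ℚ F] [FiniteDimensional ℚ F₀] [F.fixingSubgroup.Normal]
      [F₀.fixingSubgroup.Normal], F₀ ≤ F → IsSolvableOverReal c F →
      IsMonomialGroup ((QA ≃ₐ[ℚ] QA) ⧸ F₀.fixingSubgroup) →
      ∀ lam : (QA ≃ₐ[ℚ] QA) →* E'ˣ, (∀ γ ∈ F.fixingSubgroup, lam γ = 1) →
      ∀ L L₀ : (E' →+* QA) → ℂ → ℂ,
      IsLFunction M ι (induced F (1 : F.fixingSubgroup →* E'ˣ)) L →
      IsLFunction M ι (induced F₀ (lam.comp F₀.fixingSubgroup.subtype)) L₀ →
      ∀ τ₀ : E' →+* QA, meromorphicOrderAt (L τ₀) (m : ℂ) ≤
        max 1 (meromorphicOrderAt (L₀ τ₀) (m : ℂ)) →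
      ∀ (n : Type) [Fintype n] [DecidableEq n] (ρ : (QA ≃ₐ[ℚ] QA) →* Matrix n n E'),
        (∀ γ ∈ F.fixingSubgroup, ρ γ = 1) → DeligneConjecture M ι c m ρ := by
  intro E' _ _ _ F F₀ _ _ _ _ hle hF hMG lam hlam L L₀ hL hL₀ τ₀ hz n _ _ ρ hρ
  exact fin hc hab hM hfin hodd hMχ hper F F₀ hle hF hMG lam hlam hL hL₀ τ₀ hz ρ hρ

end Pool.Agent.Results.MP_100fe7_nt.CentralValues
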