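import Pool.Agent.Helper78K9.DT.Main

/-!
# Deligne's conjecture: descent from number fields of large degree

Let `M` be a motive over `ℚ` with coefficients in the number field `E` (`Motive QA KK E d`: the matrices of the
isomorphisms `I_∞^±` in bases over `E`, and for every prime a `λ`-adic realization with an inertia group
and a Frobenius element), and let `m` be an integer. Let `ρ` be an Artin representation with
coefficients in an extension `E'` of `E`. `DeligneConjecture M ι c m ρ` is Deligne's conjecture for the
motive `M ⊗ ρ` at `m` (`QA` an algebraic closure of `ℚ`, `KK` an algebraically closed field of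
coefficients for the `λ`-adic realizations, for example `ℂ`, `ι` the embedding of the algebraic numbers in `ℂ`, `c` complex conjugation;
`ρ = 1` is the case of `M` itself, `ρ = Ind_K 1` the case of `M` over a number field `K`). For a number
field `K`, `baseChange ρ K = ρ ⊗ Ind_K 1` is `M ⊗ ρ` over `K`, viewed over `ℚ`, and `Known M ι c m ρ K`
says that `L(s, M ⊗ ρ over K)` has a nonzero value at `m` and that Deligne's conjecture holds for
`M ⊗ ρ` over `K`.

**Theorem (1).** Let `F/ℚ` be a finite Galois extension with the group `G` (given by a surjective
homomorphism `π` from the absolute Galois group to `G` with an open kernel). If Deligne's conjecture is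
known for `M ⊗ ρ` over all the fixed fields `K` of the hyperelementary subgroups of `G` (cyclic normal
subgroup of order prime to `p` with a `p`-group as the quotient), then it holds for `M ⊗ ρ`. So if `G` is
not hyperelementary (for example `A₄`, `S₄`, `(ℤ/6)²`, all nonsolvable groups), then only fields
`K ≠ ℚ` occur.

**Theorem (2).** For every `N`, every finite set `S` of prime numbers and every number field `F₀`: if
Deligne's conjecture is known for `M ⊗ ρ` over all totally real Galois extensions `K/ℚ` with the group
`ℤ/p` or `(ℤ/p)²` for a prime `p ≥ N` (`IsSmall p K`) such that `K ∩ F₀ = ℚ` and the primes of `S` split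
completely in `K` (`SplitsCompletely l K`), then it holds for `M ⊗ ρ`. With `ρ = 1` and `ρ = Ind 1`:
Deligne's conjecture for the motives over these fields, arbitrarily large, disjoint from a given field
and split over the primes of `S` (for example the primes of bad reduction), implies it for all number
fields; a counterexample over `ℚ` gives counterexamples (or zeros) over such fields for infinitely
many `p`.

(1) follows from Solomon's induction theorem (`R389.one_mem_sol` in the starting files): the trivial
character is an integral combination of the permutation characters of the hyperelementary subgroups,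
the multiplicativity of L-functions and Deligne's periods for direct sums, and their independence of
the choices (`Pool.Agent.Helper8K9.DG`). For (2) realize `(ℤ/p)²` and `(ℤ/q)²` for two primes
`p, q ≥ N` in cyclotomic fields in which the primes of `S` split completely, and combine the relations
`p·1 + Ind_1 1 = ∑ Ind_V 1` (sum over the `p + 1` subgroups `V` of order `p` of `(ℤ/p)²`) for `p` and
`q`, with `a p = b q + 1`.
-/

set_option autoImplicit false

namespace Pool.Agent.Results.MP_100fe7_nt.DescentFromLargeFields

open Filter Topology NumberField Pool.Agent.Helper8K9.DG Pool.Agent.Helper78K9.DS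
  Pool.Agent.Helper78K9.DT

variable {QA : Type} [Field QA] [CharZero QA] [IsAlgClosed QA] [Algebra.IsAlgebraic ℚ QA]
  {KK : Type} [Field KK] [IsAlgClosed KK]

/-- Let `M` be a motive over `ℚ` with coefficients in the number field `E`, and let `ρ` be an Artin
representation with coefficients in a finite extension `E'` of `E`.
(1) If Deligne's conjecture at `m` is known for `M ⊗ ρ` over the fixed fields of the hyperelementary
subgroups of the Galois group `G` of a finite Galois extension of `ℚ`, then it holds for `M ⊗ ρ`, and
the value at `m` of the L-function is not zero.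
(2) The same holds if, for some `N`, some finite set `S` of prime numbers and some number field `F₀`, it is
known for `M ⊗ ρ` over all totally real Galois extensions `K/ℚ` with the group `ℤ/p` or `(ℤ/p)²`, `p ≥ N`
prime, such that `K ∩ F₀ = ℚ` and all the primes of `S` split completely in `K`. -/
theorem result {E : Type} [Field E] [NumberField E] {d : ℕ} (M : Motive QA KK E d) (ι : QA →+* ℂ)
    (c : QA ≃ₐ[ℚ] QA) (hc : ∀ x, ι (c x) = starRingEnd ℂ (ι x)) (m : ℤ)
    {E' : Type} [Field E'] [NumberField E'] [Algebra E E'] {n : Type} [Fintype n] [DecidableEq n]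
    (ρ : (QA ≃ₐ[ℚ] QA) →* Matrix n n E') (hρ : IsFinite ⊤ ρ) :
    (∀ (G : Type) [Group G] [Finite G] (π : (QA ≃ₐ[ℚ] QA) →* G), Function.Surjective π → IsFinite ⊤ π →
      (∀ V : Subgroup G, Pool.Agent.R389.Hyper V →
        ∀ (K : IntermediateField ℚ QA) [FiniteDimensional ℚ K],
          K.fixingSubgroup = V.comap π → Known M ι c m ρ K) →
      DeligneConjecture M ι c m ρ ∧ ∀ L, IsLFunction M ι ρ L → ∀ τ, ∃ a : ℂ, a ≠ 0 ∧
        Tendsto (L τ) (𝓝[≠] (m : ℂ)) (𝓝 a)) ∧
    (∀ (N : ℕ) (S : Finset ℕ), (∀ l ∈ S, l.Prime) →
      ∀ (F₀ : IntermediateField ℚ QA) [FiniteDimensional ℚ F₀],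
      (∀ (p : ℕ) (K : IntermediateField ℚ QA) [FiniteDimensional ℚ K], p.Prime → N ≤ p →
        IsSmall p K → K ⊓ F₀ = ⊥ → (∀ l ∈ S, SplitsCompletely l K) → Known M ι c m ρ K) →
      DeligneConjecture M ι c m ρ ∧ ∀ L, IsLFunction M ι ρ L → ∀ τ, ∃ a : ℂ, a ≠ 0 ∧
        Tendsto (L τ) (𝓝[≠] (m : ℂ)) (𝓝 a)) :=
  ⟨fun G _ _ π hs hf h => galois_descent M ι c m ρ hc hρ G π hs hf h,
    fun N S hS F₀ _ h => small_descent hc hρ N S hS F₀ h⟩

end Pool.Agent.Results.MP_100fe7_nt.DescentFromLargeFields
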