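import Pool.Agent.Helper51K9.RG.Plain

/-!
# Deligne's conjecture: one critical integer suffices, potentially

Let `M` be a motive over `ℚ` with coefficients in `E` and without middle Hodge type, and let `m`, `m'` be
two integers which are critical for `M`. Deligne's conjecture for `M` at `m` and at `m'` predicts the
quotient

`L(m, M) / L(m', M) = e (2 π i) ^ ((m - m') n^ε) c^ε(M) / c^ε'(M)`,   `e ∈ E`,

where `ε` and `ε'` are the signs of `(-1) ^ m` and `(-1) ^ m'`; if `m` and `m'` have the same parity, there
are no periods in this formula. For automorphic representations quotients of this kind are much better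
understood than the values themselves: they occur in the constant terms of Eisenstein classes (Harder,
Harder and Raghuram, for totally real and totally imaginary fields `K`, all `GL_n × GL_n'`). For the
motive `M` itself this needs the automorphy of `M`, while the known theorems (potential automorphy)
often give the automorphy of `M` only over a large Galois extension `F` of `ℚ`, and then over the
subfields `K` of `F` such that the Galois group of `F` over `K` is solvable.

**Theorem.** Let `F` be a finite Galois extension of `ℚ`. Suppose that for all subfields `K` of `F` such that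
the Galois group of `F` over `K` is nilpotent, and all characters `ψ` of this Galois group, the quotient
`L(m, M_K ⊗ ψ) / L(m', M_K ⊗ ψ)` is the one predicted by Deligne's conjecture (and the two values are not
zero). Then for EVERY Artin representation `ρ` of the Galois group of `F` over `ℚ`, for example for
`ρ = 1`, with coefficients in any number field `E'` that contains `E`,

* the L-function of `M ⊗ ρ` has local factors over `E'`, it continues meromorphically to the complex plane,
  and its values at `m` and `m'` are not zero;
* the quotient `L(m, M ⊗ ρ) / L(m', M ⊗ ρ)` is the one predicted by Deligne's conjecture, with the same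
  element `e` of `E'` for all embeddings of `E'`;
* Deligne's conjecture for `M ⊗ ρ` at `m` is equivalent to Deligne's conjecture for `M ⊗ ρ` at `m'`.

The second part of the theorem is the case of two integers of the same parity, in which no periods
occur in the hypothesis: `L(m, M_K ⊗ ψ) / L(m', M_K ⊗ ψ)` is `(2 π i) ^ ((m - m') n^ε)` times an element of
the field of coefficients.

There is no hypothesis on the motive `M` over `ℚ` or on any value of an L-function over `ℚ` if `F` is not
nilpotent over `ℚ`.

The motive enters through its realizations, as in the paper of Deligne: for every prime number a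
`λ`-adic representation with its inertia group and Frobenius element, and the period matrices; the
periods of `M ⊗ ρ` are defined as in the problem. Here `QA` is an algebraic closure of `ℚ`, with the
embedding `ι` in `ℂ` and the complex conjugation `c`, and the `λ`-adic representations have their
coefficients in an algebraically closed field `KK`. (The structure `Motive` and the definitions of the
L-function and of the period of `M ⊗ ρ` are due to helper8.)
-/

namespace Pool.Agent.Results.MP_100fe7_nt.OneCriticalInteger

open Pool.Agent.Helper8K9.DG Pool.Agent.Helper51K9.RG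

/-- `ρ` is trivial on the Galois group of `F` -/
def FactorsThrough {QA : Type} [Field QA] [CharZero QA] (F : IntermediateField ℚ QA) {E' n : Type} [Field E'] [Fintype n]
    [DecidableEq n] (ρ : (QA ≃ₐ[ℚ] QA) →* Matrix n n E') : Prop :=
  ∀ γ ∈ F.fixingSubgroup, ρ γ = 1

theorem result {QA : Type} [Field QA] [CharZero QA] [IsAlgClosed QA] [Algebra.IsAlgebraic ℚ QA]
    {KK : Type} [Field KK] [IsAlgClosed KK] {E : Type} [Field E] [NumberField E] {d : ℕ}
    (M : Motive QA KK E d) (ι : QA →+* ℂ) (c : QA ≃ₐ[ℚ] QA) (hc : ∀ x, ι (c x) = starRingEnd ℂ (ι x)) (m m' : ℤ)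
    (F : IntermediateField ℚ QA) [Normal ℚ F] [FiniteDimensional ℚ F] :
    (AbelianRatios M ι c m m' F →
      ∀ (E' : Type) [Field E'] [NumberField E'] [Algebra E E'] (n : Type) [Fintype n]
        [DecidableEq n] (ρ : (QA ≃ₐ[ℚ] QA) →* Matrix n n E'), FactorsThrough F ρ →
        HasL M ι ρ ∧ RatioAt M ι c m m' ρ ∧
          (DeligneConjecture M ι c m ρ ↔ DeligneConjecture M ι c m' ρ)) ∧
    (Even (m - m') → PlainAbelianRatios M ι m m' F →
      ∀ (E' : Type) [Field E'] [NumberField E'] [Algebra E E'] (n : Type) [Fintype n]
        [DecidableEq n] (ρ : (QA ≃ₐ[ℚ] QA) →* Matrix n n E'), FactorsThrough F ρ →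
        HasL M ι ρ ∧ PlainRatioAt M ι m m' ρ ∧
          (DeligneConjecture M ι c m ρ ↔ DeligneConjecture M ι c m' ρ)) := by
  have hcc := conj_sq ι c hc
  have key : AbelianRatios M ι c m m' F →
      ∀ (E' : Type) [Field E'] [NumberField E'] [Algebra E E'] (n : Type) [Fintype n]
        [DecidableEq n] (ρ : (QA ≃ₐ[ℚ] QA) →* Matrix n n E'), FactorsThrough F ρ →
        HasL M ι ρ ∧ RatioAt M ι c m m' ρ ∧
          (DeligneConjecture M ι c m ρ ↔ DeligneConjecture M ι c m' ρ) := by
    intro h E' _ _ _ n _ _ ρ hρ
    obtain ⟨h1, h2⟩ := ratio_all M ι c m m' hcc F h ρ hρ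
    exact ⟨h1, h2, fun hD => deligne_of M ι c m m' hcc F ρ hρ h2 hD,
      fun hD => deligne_of M ι c m' m hcc F ρ hρ (RatioAt.symm M ι c m m' h2) hD⟩
  refine ⟨key, fun hm h E' _ _ _ n _ _ ρ hρ => ?_⟩
  obtain ⟨h1, h2, h3⟩ := key (abelian_of_plain M ι c m m' hm F h) E' n ρ hρ
  exact ⟨h1, plain_of_ratio M ι c m m' hm hcc hρ h2, h3⟩

end Pool.Agent.Results.MP_100fe7_nt.OneCriticalInteger
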